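import Pool.Agent.Lib.MP_64d474_lc.DF.HQ15

/-!
# Induction on the level, for sums with any `r` variables together in few terms
-/

set_option autoImplicit false

namespace DF.Ind15

open MvPolynomial AK LS LS.CL15

universe u

/-- The parameters (number of polynomials, degree, transcendence degree, individual degree). -/
def par (e : ℕ) : ℕ → ℕ × ℕ × ℕ × ℕ
  | 0 => (1, 1, 0, e)
  | j + 1 => (((par e j).2.2.2 + 1) * ((par e j).2.2.2 + 1) * (par e j).1,
      2 * (par e j).2.2.2 ^ 2 * ((par e j).2.2.2 + 1) * (par e j).2.1,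
      ((par e j).2.2.2 + 1) * ((par e j).2.2.2 + 1) * (par e j).2.2.1,
      2 * (par e j).2.2.2 ^ 2 * ((par e j).2.2.2 + 1) * (par e j).2.2.2)

/-- The classes for the iteration. -/
def PC {F : Type*} [Field F] {n : ℕ} (r s k e t j : ℕ) (b : MvPolynomial (Fin n) F) : Prop :=
  Qd r (par e j).1 (par e j).2.1 (par e j).2.2.1 k (DLev r ((e + 1) ^ j * s) k e t) b ∧
    ∀ i, b.degreeOf i ≤ (par e j).2.2.2

theorem one_le_par {e : ℕ} (he : 1 ≤ e) (j : ℕ) : 1 ≤ (par e j).2.2.2 := by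
  induction j with
  | zero => exact he
  | succ j ih =>
    show 0 < 2 * (par e j).2.2.2 ^ 2 * ((par e j).2.2.2 + 1) * (par e j).2.2.2
    have : 0 < (par e j).2.2.2 := ih
    positivity

theorem steps_PC {F : Type u} [Field F] [Infinite F] {n r s k e t : ℕ} (he : 1 ≤ e) :
    Steps (F := F) (n := n) (PC r s k e t) := by
  intro j i BB hBB
  obtain ⟨BB', h1, h2⟩ := step_gen (one_le_par he j) (Pi.single i (1 : F)) BB
    (fun b hb => (hBB b hb).1)
    (fun b hb => (sh_natDegree_degreeOf i b).trans ((hBB b hb).2.2 i))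
  refine ⟨BB', fun b hb => ⟨(h1 b hb).1, ?_, ?_⟩, h2⟩
  · have h3 := CL15.expr_qd i BB (fun b hb => (hBB b hb).2) b (h1 b hb).2
    have h4 : (e + 1) * ((e + 1) ^ j * s) = (e + 1) ^ (j + 1) * s := by ring
    rw [h4] at h3
    exact h3
  · intro i'
    exact DH.expr_degreeOf i i' BB (fun b hb => (hBB b hb).2.2 i') b (h1 b hb).2

/-- A polynomial whose differences are simple is in the class. -/
theorem qd_of_df {F : Type*} [Field F] {n r k : ℕ} {P : MvPolynomial (Fin n) F → Prop}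
    {f : MvPolynomial (Fin n) F} (h : Df k P r f) : Qd r 1 1 0 k P f := by
  classical
  refine ⟨1, fun _ => f, X 0, le_rfl, fun _ => h, fun μ hμ j => ?_, LS.Ind15.algF_zero ?_, by simp⟩
  · rw [support_X, Finset.mem_singleton] at hμ
    rw [hμ, Finsupp.single_apply]
    split_ifs <;> simp
  · rintro g ⟨μ, rfl⟩
    rw [coeff_X]
    split_ifs
    · exact Subalgebra.one_mem _
    · exact Subalgebra.zero_mem _

theorem pow_le {C c a s S : ℕ} (hs : 1 ≤ s) (h1 : c * a ≤ C) (h2 : c ≤ C) (hS : (C * s) ^ C ≤ S) :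
    (c * (a * s)) ^ c ≤ S := by
  rcases Nat.eq_zero_or_pos C with h0 | h0
  · have : c = 0 := by omega
    subst this
    subst h0
    simpa using hS
  · calc (c * (a * s)) ^ c = (c * a * s) ^ c := by rw [mul_assoc]
      _ ≤ (C * s) ^ c := Nat.pow_le_pow_left (Nat.mul_le_mul_right s h1) _
      _ ≤ (C * s) ^ C := Nat.pow_le_pow_right (Nat.mul_pos h0 hs) h2
      _ ≤ S := hS

theorem hit_ind (t : ℕ) : ∀ r k e K : ℕ, 1 ≤ e → ∃ R c : ℕ, ∀ (F : Type u) [Field F] [CharZero F]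
    (n s S : ℕ), 1 ≤ s → (c * s) ^ c ≤ S → ∀ f : MvPolynomial (Fin n) F, f ≠ 0 →
    DH.Alg K (DLev r s k e t) f → aeval (DH.B.bX F n S R) f ≠ 0 := by
  induction t with
  | zero =>
    intro r k e K he
    obtain ⟨R, c, h⟩ := LS.Ind15.hit_ind.{u} 0 k e K he
    exact ⟨R, c, fun F _ _ n s S hs hS f h0 hf => h F n s S hs hS f h0 hf⟩
  | succ t ih =>
    intro r k e K he
    have hq : ∀ j : ℕ, ∃ K' N' : ℕ, ∀ (F : Type u) [Field F] [CharZero F] (n s R S : ℕ),
        (∀ f : MvPolynomial (Fin n) F, f ≠ 0 → DH.Alg K' (DLev r ((e + 1) ^ N' * s) k e t) f →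
          aeval (DH.B.bX F n S R) f ≠ 0) →
        ∀ f : MvPolynomial (Fin n) F, f ≠ 0 →
          Qd r (par e j).1 (par e j).2.1 (par e j).2.2.1 k (DLev r s k e t) f →
          aeval (DH.B.bX F n S (R + N')) f ≠ 0 := fun j => by
      obtain ⟨K', N', h⟩ := HQ15.hit_qd.{u} r (par e j).1 (par e j).2.1 (par e j).2.2.1 k
      exact ⟨K', N', fun F _ _ n s R S => h F n r s k e t R S⟩
    choose K' N' hQ using hq
    have hj : ∀ j : ℕ, ∃ R c : ℕ, ∀ (F : Type u) [Field F] [CharZero F]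
        (n s S : ℕ), 1 ≤ s → (c * s) ^ c ≤ S → ∀ f : MvPolynomial (Fin n) F, f ≠ 0 →
        DH.Alg (K' j) (DLev r s k e t) f → aeval (DH.B.bX F n S R) f ≠ 0 :=
      fun j => ih r k e _ he
    choose R c hRc using hj
    refine ⟨∑ j ∈ Finset.range (K + 1), (R j + N' j + j),
      1 + ∑ j ∈ Finset.range (K + 1), c j * (e + 1) ^ (N' j + j),
      fun F _ _ n s S hs hS f h0 hf => ?_⟩
    obtain ⟨m, T, h1, h2, h3⟩ := hf
    obtain ⟨r', hr', I, hI, BB, hBB, hres⟩ := nonzero_gen (PC r s k e t) (steps_PC he) T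
      (fun j => by
        obtain ⟨M, hM, hT⟩ := h1 j
        refine ⟨M, fun p hp => ?_, hT⟩
        have h4 := hM p hp
        refine ⟨?_, h4.2⟩
        have h5 := qd_of_df h4.1
        show Qd r 1 1 0 k (DLev r ((e + 1) ^ 0 * s) k e t) p
        rwa [pow_zero, one_mul]) h2 f h3 h0
    have hmem : r' ∈ Finset.range (K + 1) := Finset.mem_range.2 (Nat.lt_succ_of_le hr')
    have hc : c r' * (e + 1) ^ (N' r' + r') ≤
        ∑ j ∈ Finset.range (K + 1), c j * (e + 1) ^ (N' j + j) :=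
      Finset.single_le_sum (f := fun j => c j * (e + 1) ^ (N' j + j))
        (fun _ _ => Nat.zero_le _) hmem
    have hR : R r' + N' r' + r' ≤ ∑ j ∈ Finset.range (K + 1), (R j + N' j + j) :=
      Finset.single_le_sum (f := fun j => R j + N' j + j) (fun _ _ => Nat.zero_le _) hmem
    refine LS.Ind15.bX_mono hR f ?_
    refine DH.B.hit_of_res I hI.le BB (fun b hb => ?_) f hres
    refine hQ r' F n ((e + 1) ^ r' * s) (R r') S (fun g hg0 hg => ?_) b (hBB b hb).1
      (hBB b hb).2.1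
    refine hRc r' F n ((e + 1) ^ N' r' * ((e + 1) ^ r' * s)) S ?_ ?_ g hg0 hg
    · exact Nat.mul_pos (Nat.pow_pos (Nat.succ_pos e)) (Nat.mul_pos (Nat.pow_pos (Nat.succ_pos e)) hs)
    · rw [← mul_assoc ((e + 1) ^ N' r'), ← pow_add]
      have hc' : c r' ≤ c r' * (e + 1) ^ (N' r' + r') :=
        Nat.le_mul_of_pos_right (c r') (Nat.pow_pos (Nat.succ_pos e))
      exact pow_le hs (by omega) (by omega) hS

theorem hit_df (t : ℕ) : ∀ r k e : ℕ, 1 ≤ e → ∃ R c : ℕ, ∀ (F : Type u) [Field F] [CharZero F]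
    (n s S : ℕ), 1 ≤ s → (c * s) ^ c ≤ S → ∀ f : MvPolynomial (Fin n) F, f ≠ 0 →
    Df k (DLev r s k e t) r f → aeval (DH.B.bX F n S R) f ≠ 0 := by
  intro r k e he
  obtain ⟨K', N', hQ⟩ := HQ15.hit_qd.{u} r 1 1 0 k
  obtain ⟨R, c, h⟩ := hit_ind.{u} t r k e K' he
  refine ⟨R + N', 1 + c * (e + 1) ^ N', fun F _ _ n s S hs hS f h0 hf => ?_⟩
  refine hQ F n r s k e t R S (fun g hg0 hg => h F n ((e + 1) ^ N' * s) S ?_ ?_ g hg0 hg) f h0
    (qd_of_df hf)
  · exact Nat.mul_pos (Nat.pow_pos (Nat.succ_pos e)) hs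
  · have hc' : c ≤ c * (e + 1) ^ N' := Nat.le_mul_of_pos_right c (Nat.pow_pos (Nat.succ_pos e))
    exact pow_le hs (by omega) (by omega) hS

/-- The levels given by sums are contained in levels given by differences. -/
theorem dlev_of_rlev {F : Type*} [Field F] {n r s k e : ℕ} (t : ℕ) :
    ∀ {f : MvPolynomial (Fin n) F}, RLev r s k e t f →
      DLev (ord r e) ((e + 1) ^ (ord r e * t) * s) (2 ^ ord r e * k * (2 ^ ord r e * k)) e t f := by
  induction t with
  | zero =>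
    intro f h
    rw [mul_zero, pow_zero, one_mul]
    exact h
  | succ t ih =>
    intro f h
    refine ⟨df_of_locR (fun c hc p hp => ?_) h.1, h.2⟩
    have h1 := dlev_tc (ord r e) c hc (ih hp)
    rwa [← mul_assoc, ← pow_add, show ord r e + ord r e * t = ord r e * (t + 1) by ring] at h1

theorem hit_top (t : ℕ) : ∀ r k e : ℕ, 1 ≤ e → ∃ R c : ℕ, ∀ (F : Type u) [Field F] [CharZero F]
    (n s S : ℕ), 1 ≤ s → (c * s) ^ c ≤ S → ∀ f : MvPolynomial (Fin n) F, f ≠ 0 →
    LocR r k e (RLev r s k e t) f → aeval (DH.B.bX F n S R) f ≠ 0 := by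
  intro r k e he
  obtain ⟨R, c, h⟩ := hit_df.{u} t (ord r e) (2 ^ ord r e * k * (2 ^ ord r e * k)) e he
  refine ⟨R, 1 + c * (e + 1) ^ (ord r e * (t + 1)), fun F _ _ n s S hs hS f h0 hf => ?_⟩
  refine h F n ((e + 1) ^ (ord r e * (t + 1)) * s) S ?_ ?_ f h0 ?_
  · exact Nat.mul_pos (Nat.pow_pos (Nat.succ_pos e)) hs
  · have hc' : c ≤ c * (e + 1) ^ (ord r e * (t + 1)) :=
      Nat.le_mul_of_pos_right c (Nat.pow_pos (Nat.succ_pos e))
    exact pow_le hs (by omega) (by omega) hS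
  · refine df_of_locR (fun c hc p hp => ?_) hf
    have h1 := dlev_tc (ord r e) c hc (dlev_of_rlev t hp)
    rwa [← mul_assoc, ← pow_add, show ord r e + ord r e * t = ord r e * (t + 1) by ring] at h1

end DF.Ind15
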