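import Pool.Agent.Lib.MP_64d474_lc.DF.Defs15

/-!
# Rows B1 to B7: differences, translations
-/

set_option autoImplicit false

namespace DF

open MvPolynomial AK LS

/-- Row B1. -/
theorem df_mono {F : Type*} [Field F] {n k k' r : ℕ} {P P' : MvPolynomial (Fin n) F → Prop}
    (hk : k ≤ k') (hP : ∀ f, P f → P' f) {f : MvPolynomial (Fin n) F} (h : Df k P r f) :
    Df k' P' r f := by
  induction r generalizing f with
  | zero => exact DH.alg_mono hk hP h
  | succ r ih => exact fun i a => ih (h i a)

theorem alg_add {F : Type*} [Field F] {n k k' : ℕ} {P : MvPolynomial (Fin n) F → Prop}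
    {f g : MvPolynomial (Fin n) F} (hf : DH.Alg k P f) (hg : DH.Alg k' P g) :
    DH.Alg (k + k') P (f + g) := by
  obtain ⟨m, T, h1, h2, h3⟩ := hf
  obtain ⟨m', T', h1', h2', h3'⟩ := hg
  have e1 : AlgF k P {f} := ⟨m, T, h1, h2, Set.singleton_subset_iff.2 h3⟩
  have e2 : AlgF k' P {g} := ⟨m', T', h1', h2', Set.singleton_subset_iff.2 h3'⟩
  refine HQ15.alg_of_algF (algF_adjoin (algF_union e1 e2)) ?_
  exact Subalgebra.add_mem _ (Algebra.subset_adjoin (Or.inl rfl))
    (Algebra.subset_adjoin (Or.inr rfl))

/-- Row B2. -/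
theorem df_add {F : Type*} [Field F] {n k k' r : ℕ} {P : MvPolynomial (Fin n) F → Prop}
    {f g : MvPolynomial (Fin n) F} (hf : Df k P r f) (hg : Df k' P r g) :
    Df (k + k') P r (f + g) := by
  induction r generalizing f g with
  | zero => exact alg_add hf hg
  | succ r ih =>
    intro i a
    have e1 : tc (Pi.single i a) (f + g) - (f + g) =
        (tc (Pi.single i a) f - f) + (tc (Pi.single i a) g - g) := by
      rw [map_add]; ring
    rw [e1]
    exact ih (hf i a) (hg i a)

/-- Row B3. -/
theorem dlev_mono {F : Type*} [Field F] {n r s s' k e t : ℕ} (hs : s ≤ s')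
    {f : MvPolynomial (Fin n) F} (h : DLev r s k e t f) : DLev r s' k e t f := by
  induction t generalizing f with
  | zero => exact ⟨h.1.trans hs, h.2⟩
  | succ t ih => exact ⟨df_mono le_rfl (fun f hf => ih hf) h.1, h.2⟩

theorem tc_comm {F : Type*} [Field F] {n : ℕ} (c c' : Fin n → F) (f : MvPolynomial (Fin n) F) :
    tc c (tc c' f) = tc c' (tc c f) := by
  rw [LS.tc_tc, LS.tc_tc, add_comm]

/-- Translations, any class. -/
theorem df_tcP {F : Type*} [Field F] {n k r : ℕ} {P P' : MvPolynomial (Fin n) F → Prop}
    (c : Fin n → F) (hP : ∀ f, P f → P' (tc c f)) {f : MvPolynomial (Fin n) F}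
    (h : Df k P r f) : Df k P' r (tc c f) := by
  induction r generalizing f with
  | zero => exact DH.alg_map _ (tc_injective c) hP h
  | succ r ih =>
    intro i a
    rw [tc_comm, ← map_sub]
    exact ih (h i a)

/-- Differences, any class. -/
theorem df_diffP {F : Type*} [Field F] {n κ r' : ℕ} {P P' : MvPolynomial (Fin n) F → Prop}
    {f : MvPolynomial (Fin n) F} (h : Df κ P (r' + 1) f) (m : ℕ)
    (hP : ∀ c : Fin n → F, (supp c).card ≤ m → ∀ f, P f → P' (tc c f)) (c : Fin n → F)
    (hc : (supp c).card ≤ m) : Df (m * κ) P' r' (tc c f - f) := by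
  classical
  have hzero : ∀ K r, Df K P' r (0 : MvPolynomial (Fin n) F) := by
    intro K r
    induction r with
    | zero =>
      refine ⟨0, fun j => j.elim0, fun j => j.elim0, fun s _ => ?_, Subalgebra.zero_mem _⟩
      rw [Finset.eq_empty_of_isEmpty s]
      simp
    | succ r ih =>
      intro i a
      rw [map_zero, sub_zero]
      exact ih
  induction m generalizing c with
  | zero =>
    have h0 : c = 0 := by
      funext i
      by_contra hi
      have : i ∈ supp c := by simpa [supp] using hi
      have := Finset.card_pos.2 ⟨i, this⟩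
      omega
    rw [h0, tc_zero, sub_self]
    exact hzero _ _
  | succ m ih =>
    by_cases h0 : supp c = ∅
    · exact df_mono (Nat.mul_le_mul_right _ (Nat.le_succ m)) (fun f hf => hf)
        (ih (fun c hc => hP c (hc.trans (Nat.le_succ m))) c (by rw [h0]; simp))
    · obtain ⟨i, hi⟩ := Finset.nonempty_iff_ne_empty.2 h0
      have hsub : supp (Function.update c i 0) ⊆ (supp c).erase i := by
        intro j hj
        rw [supp, Finset.mem_filter] at hj
        have hji : j ≠ i := by
          rintro rfl
          exact hj.2 (Function.update_self _ _ _)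
        rw [Finset.mem_erase, supp, Finset.mem_filter]
        refine ⟨hji, Finset.mem_univ _, ?_⟩
        have := hj.2
        rwa [Function.update_of_ne hji] at this
      have hcard : (supp (Function.update c i 0)).card ≤ m := by
        have h1 := Finset.card_le_card hsub
        rw [Finset.card_erase_of_mem hi] at h1
        omega
      have hc' : Function.update c i 0 + Pi.single i (c i) = c := by
        funext j
        rw [Pi.add_apply]
        by_cases hji : j = i
        · subst hji
          rw [Pi.single_eq_same, Function.update_self, zero_add]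
        · rw [Pi.single_eq_of_ne hji, Function.update_of_ne hji, add_zero]
      have e1 : tc c f - f = (tc (Function.update c i 0) f - f) +
          tc (Function.update c i 0) (tc (Pi.single i (c i)) f - f) := by
        rw [map_sub, LS.tc_tc, hc']
        ring
      rw [e1, Nat.succ_mul]
      refine df_add (ih (fun c hc => hP c (hc.trans (Nat.le_succ m))) _ hcard) ?_
      exact df_tcP _ (hP _ (hcard.trans (Nat.le_succ m))) (h i (c i))

/-- Row B4. -/
theorem dlev_tc {F : Type*} [Field F] {n r s k e t : ℕ} (m : ℕ) (c : Fin n → F)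
    (hc : (supp c).card ≤ m) {f : MvPolynomial (Fin n) F} (h : DLev r s k e t f) :
    DLev r ((e + 1) ^ m * s) k e t (tc c f) := by
  induction t generalizing f with
  | zero => exact ⟨tc_card m c hc h.1 h.2, fun j => (tc_degreeOf c j f).trans (h.2 j)⟩
  | succ t ih =>
    exact ⟨df_tcP c (fun f hf => ih hf) h.1, fun j => (tc_degreeOf c j f).trans (h.2 j)⟩

/-- Row B5. -/
theorem df_tc {F : Type*} [Field F] {n r s k e t κ r' : ℕ} (m : ℕ) (c : Fin n → F)
    (hc : (supp c).card ≤ m) {f : MvPolynomial (Fin n) F} (h : Df κ (DLev r s k e t) r' f) :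
    Df κ (DLev r ((e + 1) ^ m * s) k e t) r' (tc c f) :=
  df_tcP c (fun _ hf => dlev_tc m c hc hf) h

/-- Row B6. -/
theorem algF_tcD {F : Type*} [Field F] {n r s k e t K : ℕ} (m : ℕ) (c : Fin n → F)
    (hc : (supp c).card ≤ m) {G : Set (MvPolynomial (Fin n) F)}
    (h : AlgF K (DLev r s k e t) G) :
    AlgF K (DLev r ((e + 1) ^ m * s) k e t) (tc c '' G) :=
  algF_map c (fun _ hf => dlev_tc m c hc hf) h

/-- Row B7. -/
theorem df_diff {F : Type*} [Field F] {n r s k e t κ r' : ℕ} (m : ℕ) (c : Fin n → F)
    (hc : (supp c).card ≤ m) {f : MvPolynomial (Fin n) F}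
    (h : Df κ (DLev r s k e t) (r' + 1) f) :
    Df (m * κ) (DLev r ((e + 1) ^ m * s) k e t) r' (tc c f - f) :=
  df_diffP h m (fun c hc _ hf => dlev_tc m c hc hf) c hc

end DF
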