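import Pool.Agent.Lib.MP_64d474_lc.DF.Defs15
import Pool.Agent.Lib.MP_64d474_lc.LS.Loc93

/-!
# Lemma LOC with the degree bound: descent by translations, entries with variables
-/

set_option autoImplicit false

namespace DF.L93

open MvPolynomial LS.Loc93

variable {F : Type*} [Field F] {n q : ℕ}

/-- All coefficients have degree at most `a` in the variable `x`. -/
def Dg {R : Type*} [CommRing R] {σ : Type*} {q : ℕ} (x : σ) (a : ℕ)
    (f : MvPolynomial (Fin q) (MvPolynomial σ R)) : Prop :=
  ∀ m, (coeff m f).degreeOf x ≤ a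

section

variable {R : Type*} [CommRing R] {σ : Type*} {x : σ}

theorem Dg.mul {a b : ℕ} {f g : MvPolynomial (Fin q) (MvPolynomial σ R)} (hf : Dg x a f)
    (hg : Dg x b g) : Dg x (a + b) (f * g) := by
  classical
  intro m
  rw [coeff_mul]
  refine (degreeOf_sum_le x _ _).trans ?_
  rw [Finset.sup_le_iff]
  intro p _
  exact (degreeOf_mul_le x _ _).trans (Nat.add_le_add (hf _) (hg _))

theorem Dg.add {a : ℕ} {f g : MvPolynomial (Fin q) (MvPolynomial σ R)} (hf : Dg x a f)
    (hg : Dg x a g) : Dg x a (f + g) := by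
  intro m
  rw [coeff_add]
  exact (degreeOf_add_le x _ _).trans (max_le (hf m) (hg m))

theorem Dg.mono {a b : ℕ} (h : a ≤ b) {f : MvPolynomial (Fin q) (MvPolynomial σ R)}
    (hf : Dg x a f) : Dg x b f := fun m => (hf m).trans h

theorem Dg.const {a : ℕ} {y : MvPolynomial σ R} (h : y.degreeOf x ≤ a) :
    Dg x a (C y : MvPolynomial (Fin q) (MvPolynomial σ R)) := by
  classical
  intro m
  rw [coeff_C]
  split
  · exact h
  · simp

theorem Dg.one : Dg x 0 (1 : MvPolynomial (Fin q) (MvPolynomial σ R)) := by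
  have h := Dg.const (q := q) (x := x) (a := 0) (y := (1 : MvPolynomial σ R)) (by simp)
  rwa [C_1] at h

theorem Dg.var (i : Fin q) : Dg x 0 (X i : MvPolynomial (Fin q) (MvPolynomial σ R)) := by
  classical
  intro m
  rw [MvPolynomial.coeff_X]
  split
  · simp
  · simp

theorem Dg.pow {a : ℕ} {f : MvPolynomial (Fin q) (MvPolynomial σ R)} (hf : Dg x a f) (k : ℕ) :
    Dg x (k * a) (f ^ k) := by
  induction k with
  | zero =>
    rw [pow_zero, zero_mul]
    exact Dg.one
  | succ k ih =>
    rw [pow_succ, Nat.add_mul, one_mul]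
    exact ih.mul hf

theorem Dg.prod {ι : Type*} (s : Finset ι) (a : ι → ℕ)
    (f : ι → MvPolynomial (Fin q) (MvPolynomial σ R)) (hf : ∀ i ∈ s, Dg x (a i) (f i)) :
    Dg x (∑ i ∈ s, a i) (∏ i ∈ s, f i) := by
  classical
  induction s using Finset.induction_on with
  | empty => simpa using Dg.one
  | insert i s his ih =>
    rw [Finset.sum_insert his, Finset.prod_insert his]
    exact (hf i (Finset.mem_insert_self i s)).mul
      (ih fun j hj => hf j (Finset.mem_insert_of_mem hj))

theorem Dg.sum {ι : Type*} (s : Finset ι) {a : ℕ}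
    (f : ι → MvPolynomial (Fin q) (MvPolynomial σ R)) (hf : ∀ i ∈ s, Dg x a (f i)) :
    Dg x a (∑ i ∈ s, f i) := by
  intro m
  rw [coeff_sum]
  refine (degreeOf_sum_le x _ _).trans ?_
  rw [Finset.sup_le_iff]
  exact fun i hi => hf i hi m

/-- The entries have degree at most `M` in each variable. -/
theorem dg_bind [Nontrivial R] {M : ℕ} (y : Fin q → σ) (hy : Function.Injective y)
    (φ : MvPolynomial (Fin q) R) (hM : ∀ μ ∈ φ.support, ∀ j, μ j ≤ M) :
    Dg x M (bind₁ (fun j => X j + C (X (y j) : MvPolynomial σ R))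
      (MvPolynomial.map (C : R →+* MvPolynomial σ R) φ)) := by
  classical
  conv in MvPolynomial.map _ φ => rw [φ.as_sum]
  rw [map_sum, map_sum]
  refine Dg.sum _ _ fun μ hμ => ?_
  rw [MvPolynomial.map_monomial, bind₁_monomial]
  have h1 : Dg x (0 + ∑ i ∈ μ.support, if y i = x then μ i else 0)
      ((C (C (coeff μ φ)) : MvPolynomial (Fin q) (MvPolynomial σ R)) *
        ∏ i ∈ μ.support, (X i + C (X (y i) : MvPolynomial σ R)) ^ μ i) := by
    refine (Dg.const (by simp)).mul (Dg.prod _ _ _ fun i _ => ?_)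
    have h2 : Dg x (if y i = x then 1 else 0)
        ((X i + C (X (y i) : MvPolynomial σ R)) : MvPolynomial (Fin q) (MvPolynomial σ R)) := by
      refine Dg.add ((Dg.var i).mono (Nat.zero_le _)) (Dg.const ?_)
      rw [degreeOf_X]
      by_cases h : y i = x
      · rw [if_pos h, if_pos h.symm]
      · rw [if_neg h, if_neg (Ne.symm h)]
    refine (h2.pow (μ i)).mono ?_
    split_ifs <;> simp
  refine h1.mono ?_
  rw [zero_add]
  by_cases hx : ∃ i0, y i0 = x
  · obtain ⟨i0, rfl⟩ := hx
    calc (∑ i ∈ μ.support, if y i = y i0 then μ i else 0)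
        = ∑ i ∈ μ.support, if i = i0 then μ i else 0 := by
          refine Finset.sum_congr rfl fun i _ => ?_
          by_cases h : i = i0
          · rw [if_pos h, if_pos (by rw [h])]
          · rw [if_neg h, if_neg fun h' => h (hy h')]
      _ ≤ μ i0 := by
          rw [Finset.sum_ite_eq' μ.support i0 fun i => μ i]
          split_ifs
          · exact le_rfl
          · exact Nat.zero_le _
      _ ≤ M := hM μ hμ i0
  · push Not at hx
    rw [Finset.sum_eq_zero fun i _ => if_neg (hx i)]
    exact Nat.zero_le _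

end

theorem main2 [Infinite F] {M : ℕ} (b : Fin q → MvPolynomial (Fin n) F)
    (P : MvPolynomial (Fin q) (MvPolynomial (Fin n) F))
    (hM : ∀ μ ∈ P.support, ∀ j, μ j ≤ M) (h0 : eval b P ≠ 0) :
    ∃ (r : ℕ) (c : Fin r → Fin n → F)
      (P' : MvPolynomial (Fin r × Fin q) (MvPolynomial (Fin n) F))
      (A : Fin r → MvPolynomial (Fin n) F), r ≤ (M + 1) ^ q ∧
      (∀ l, (sp (c l)).card ≤ (M + 1) ^ q) ∧
      (∀ μ ∈ P'.support, ∀ x, μ x ≤ (M + 1) ^ q * M) ∧
      (∀ μ, coeff μ P' ∈ Algebra.adjoin F {g | ∃ l ν, g = tr (c l) (coeff ν P)}) ∧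
      eval (fun x => tr (c x.1) (b x.2) - b x.2) P' ≠ 0 ∧
      eval (fun x => tr (c x.1) (b x.2) - b x.2) P' = ∑ l, A l * tr (c l) (eval b P) := by
  classical
  set K := FractionRing (MvPolynomial (Fin n) F) with hK
  set ι : MvPolynomial (Fin n) F →+* K := algebraMap (MvPolynomial (Fin n) F) K with hι
  have hinj : Function.Injective ι := IsFractionRing.injective (MvPolynomial (Fin n) F) K
  set p : (Fin n → F) → MvPolynomial (Fin q) K := fun c => MvPolynomial.map ι (pR b P c) with hp
  have hdeg : ∀ c, ∀ m ∈ (p c).support, ∀ j, m j ≤ M := by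
    intro c m hm j
    have h1 : m ∈ (pR b P c).support := MvPolynomial.support_map_subset _ _ hm
    refine (MvPolynomial.monomial_le_degreeOf j h1).trans ?_
    refine (degreeOf_bind _ _ j).trans ?_
    rw [MvPolynomial.degreeOf_le_iff]
    intro μ hμ
    exact hM μ (MvPolynomial.support_map_subset _ _ hμ) j
  have hT : ∀ a c, MvPolynomial.map (tK a) (p c) = p (c + a) := by
    intro a c
    have h1 : (tK a).comp ι = ι.comp (tr a).toRingHom := RingHom.ext (tK_algebraMap a)
    rw [hp]
    simp only
    rw [MvPolynomial.map_map, h1, ← MvPolynomial.map_map, map_pR]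
  obtain ⟨r, c, hr, hc, hli, hspan⟩ := exists_stable M p hdeg hT
  set W : Submodule K (MvPolynomial (Fin q) K) :=
    Submodule.span K (Set.range fun l => p (c l)) with hW
  have hstab : ∀ a : Fin n → F, ∀ w ∈ W, MvPolynomial.map (tK a) w ∈ W := by
    intro a w hw
    induction hw using Submodule.span_induction with
    | mem x h =>
      obtain ⟨l, rfl⟩ := h
      change MvPolynomial.map (tK a) (p (c l)) ∈ W
      rw [hT]
      exact hspan _
    | zero =>
      rw [map_zero]
      exact Submodule.zero_mem _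
    | add x y _ _ hx hy =>
      rw [map_add]
      exact Submodule.add_mem _ hx hy
    | smul k x _ hx =>
      rw [map_smul_tK]
      exact Submodule.smul_mem _ _ hx
  have hcoef0 : ∀ c, coeff 0 (p c) = ι (tr c (eval b P)) := by
    intro c
    rw [hp]
    simp only
    rw [MvPolynomial.coeff_map, coeff_zero_pR]
  obtain ⟨w, hwW, hw1, hwfix⟩ := exists_fixed W hstab (p 0) (hspan 0) (by
    rw [hcoef0, tr_zero]
    intro h
    exact h0 (hinj (by rw [h, map_zero])))
  -- constant coefficients
  have hcc : ∀ m, ∃ ω : F, coeff m w = ι (C ω) := by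
    intro m
    apply fixed_mem
    intro a
    have := congrArg (coeff m) (hwfix a)
    rwa [MvPolynomial.coeff_map] at this
  choose ω hω using hcc
  set γ : MvPolynomial (Fin q) (MvPolynomial (Fin n) F) :=
    ∑ m ∈ w.support, monomial m (C (ω m)) with hγ
  have hγw : MvPolynomial.map ι γ = w := by
    rw [hγ, map_sum]
    conv_rhs => rw [w.as_sum]
    apply Finset.sum_congr rfl
    intro m _
    rw [MvPolynomial.map_monomial, ← hω]
  obtain ⟨α, hα⟩ := (Submodule.mem_span_range_iff_exists_fun K).1 hwW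
  -- the substitution `η = y - b`
  set SK : MvPolynomial (Fin q) K →ₐ[K] MvPolynomial (Fin q) K :=
    bind₁ (fun j => X j - C (ι (b j))) with hSK
  have hSmap : ∀ f : MvPolynomial (Fin q) (MvPolynomial (Fin n) F),
      SK (MvPolynomial.map ι f) = MvPolynomial.map ι (bind₁ (fun j => X j - C (b j)) f) := by
    intro f
    have h2 : (fun j : Fin q => MvPolynomial.map ι
        (X j - C (b j) : MvPolynomial (Fin q) (MvPolynomial (Fin n) F))) =
        fun j => X j - C (ι (b j)) := by
      funext j
      rw [map_sub, MvPolynomial.map_X, MvPolynomial.map_C]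
    rw [MvPolynomial.map_bind₁, h2]
  have hSp : ∀ c, SK (p c) = MvPolynomial.map ι (QR b P c) := by
    intro c
    rw [hp]
    simp only
    rw [hSmap, bind_pR]
  have hli2 : LinearIndependent K fun l => co K q (SK (p (c l))) := by
    have h1 := hli.map' SK.toLinearMap (bind_ker _)
    exact h1.map' (co K q) (co_ker K q)
  obtain ⟨e, he⟩ := exists_minor _ hli2
  set B : Matrix (Fin r) (Fin r) (MvPolynomial (Fin n) F) :=
    Matrix.of fun k l => coeff (e k) (QR b P (c l)) with hB
  have hBm : B.map ι = Matrix.of fun k l => co K q (SK (p (c l))) (e k) := by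
    ext k l
    rw [Matrix.map_apply, hB, Matrix.of_apply, Matrix.of_apply]
    change _ = coeff (e k) (SK (p (c l)))
    rw [hSp, MvPolynomial.coeff_map]
  have hdet : ι B.det ≠ 0 := by
    rw [RingHom.map_det, RingHom.mapMatrix_apply, hBm]
    exact he
  set v : Fin r → MvPolynomial (Fin n) F :=
    fun k => coeff (e k) (bind₁ (fun j => X j - C (b j)) γ) with hv
  have hvB : (fun k => ι (v k)) = (B.map ι).mulVec α := by
    funext k
    have h1 : ι (v k) = coeff (e k) (SK w) := by
      rw [← hγw, hSmap, MvPolynomial.coeff_map]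
    rw [h1, ← hα, map_sum, MvPolynomial.coeff_sum]
    simp only [Matrix.mulVec, dotProduct]
    apply Finset.sum_congr rfl
    intro l _
    rw [map_smul, MvPolynomial.coeff_smul, smul_eq_mul, mul_comm, hBm, Matrix.of_apply]
    rfl
  set A : Fin r → MvPolynomial (Fin n) F := B.adjugate.mulVec v with hA
  have hAι : ∀ l, ι (A l) = ι B.det * α l := by
    intro l
    have h1 : ι (A l) = ((B.adjugate.map ι).mulVec (fun k => ι (v k))) l := by
      rw [hA]
      exact RingHom.map_mulVec ι _ _ _
    have h2 : B.adjugate.map ι = (B.map ι).adjugate := by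
      have := RingHom.map_adjugate ι B
      simpa only [RingHom.mapMatrix_apply] using this
    rw [h1, hvB, Matrix.mulVec_mulVec, h2, Matrix.adjugate_mul, Matrix.smul_mulVec,
      Matrix.one_mulVec, Pi.smul_apply, smul_eq_mul, RingHom.map_det, RingHom.mapMatrix_apply]
  -- the entries with variables
  set d : Fin r × Fin q → MvPolynomial (Fin n) F := fun x => tr (c x.1) (b x.2) - b x.2 with hd
  set B' : Matrix (Fin r) (Fin r) (MvPolynomial (Fin r × Fin q) (MvPolynomial (Fin n) F)) :=
    Matrix.of fun k l => coeff (e k) (bind₁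
      (fun j => X j + C (X (l, j) : MvPolynomial (Fin r × Fin q) (MvPolynomial (Fin n) F)))
      (MvPolynomial.map (C : MvPolynomial (Fin n) F →+* _)
        (MvPolynomial.map (tr (c l)).toRingHom P))) with hB'
  have hBB : (eval d).mapMatrix B' = B := by
    ext k l : 2
    rw [RingHom.mapMatrix_apply, Matrix.map_apply, hB', hB, Matrix.of_apply, Matrix.of_apply,
      ← MvPolynomial.coeff_map, MvPolynomial.map_bind₁, MvPolynomial.map_map]
    unfold QR
    have h1 : ((eval d).comp (C : MvPolynomial (Fin n) F →+*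
        MvPolynomial (Fin r × Fin q) (MvPolynomial (Fin n) F))) = RingHom.id _ :=
      RingHom.ext fun y => eval_C y
    have h2 : (fun j : Fin q => MvPolynomial.map (eval d)
        (X j + C (X (l, j) : MvPolynomial (Fin r × Fin q) (MvPolynomial (Fin n) F)))) =
        fun j => X j + C (tr (c l) (b j) - b j) := by
      funext j
      rw [map_add, MvPolynomial.map_X, MvPolynomial.map_C, eval_X]
    rw [h1, h2, MvPolynomial.map_id]
  have hdetE : eval d B'.det = B.det := by
    rw [RingHom.map_det, hBB]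
  refine ⟨r, c, B'.det, A, hr, hc, ?_, ?_, ?_, ?_⟩
  · intro μ hμ x
    refine (MvPolynomial.monomial_le_degreeOf x hμ).trans ?_
    rw [Matrix.det_apply]
    refine (degreeOf_sum_le x _ _).trans ?_
    rw [Finset.sup_le_iff]
    intro σ _
    rw [Units.smul_def, zsmul_eq_mul]
    refine (degreeOf_mul_le x _ _).trans ?_
    have hz : degreeOf x (((Equiv.Perm.sign σ : ℤˣ) : ℤ) :
        MvPolynomial (Fin r × Fin q) (MvPolynomial (Fin n) F)) = 0 := by
      rcases Int.units_eq_one_or (Equiv.Perm.sign σ) with h | h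
      · rw [h]; simp
      · rw [h]; simp [degreeOf_neg]
    rw [hz, zero_add]
    refine (degreeOf_prod_le x _ _).trans ?_
    refine (Finset.sum_le_sum (g := fun _ => M) fun i _ => ?_).trans ?_
    · rw [hB', Matrix.of_apply]
      refine dg_bind (fun j => (i, j)) (fun j j' h => (Prod.mk.inj h).2) _ ?_ _
      intro ν hν j
      exact hM ν (MvPolynomial.support_map_subset _ _ hν) j
    · rw [Finset.sum_const, Finset.card_univ, Fintype.card_fin, smul_eq_mul]
      exact Nat.mul_le_mul_right _ hr
  · set S : Subalgebra F (MvPolynomial (Fin n) F) :=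
      Algebra.adjoin F {g | ∃ l ν, g = tr (c l) (coeff ν P)} with hS
    have hT : B'.det ∈ (MvPolynomial.map S.toSubring.subtype :
        MvPolynomial (Fin r × Fin q) S.toSubring →+* _).range := by
      rw [Matrix.det_apply]
      apply Subring.sum_mem
      intro σ _
      rw [Units.smul_def, zsmul_eq_mul]
      apply Subring.mul_mem
      · exact intCast_mem _ _
      apply Subring.prod_mem
      intro i _
      rw [hB', Matrix.of_apply]
      apply coeff_bind_mem
      · intro j
        exact ⟨X (i, j), by rw [MvPolynomial.map_X]⟩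
      · intro m
        rw [MvPolynomial.coeff_map, MvPolynomial.coeff_map]
        exact ⟨C ⟨_, Algebra.subset_adjoin ⟨i, m, rfl⟩⟩, by rw [MvPolynomial.map_C]; rfl⟩
    obtain ⟨g, hg⟩ := hT
    intro μ
    rw [← hg, MvPolynomial.coeff_map]
    exact (coeff μ g).2
  · rw [hdetE]
    exact fun h => hdet (by rw [h, map_zero])
  · rw [hdetE]
    apply hinj
    rw [map_sum]
    have h1 : coeff 0 w = ∑ l, α l * ι (tr (c l) (eval b P)) := by
      rw [← hα, MvPolynomial.coeff_sum]
      apply Finset.sum_congr rfl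
      intro l _
      rw [MvPolynomial.coeff_smul, smul_eq_mul, hcoef0]
    rw [hw1] at h1
    calc ι B.det = ι B.det * 1 := (mul_one _).symm
      _ = ∑ l, ι (A l * tr (c l) (eval b P)) := by
        rw [h1, Finset.mul_sum]
        apply Finset.sum_congr rfl
        intro l _
        rw [map_mul, hAι]
        ring

end DF.L93

namespace DF

open MvPolynomial AK LS

/-- Row L. -/
theorem loc2 {F : Type*} [Field F] [Infinite F] {n q M : ℕ}
    (b : Fin q → MvPolynomial (Fin n) F) (P : MvPolynomial (Fin q) (MvPolynomial (Fin n) F))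
    (hM : ∀ μ ∈ P.support, ∀ j, μ j ≤ M) (h0 : eval b P ≠ 0) :
    ∃ (r : ℕ) (c : Fin r → Fin n → F)
      (P' : MvPolynomial (Fin r × Fin q) (MvPolynomial (Fin n) F))
      (A : Fin r → MvPolynomial (Fin n) F), r ≤ (M + 1) ^ q ∧
      (∀ l, (supp (c l)).card ≤ (M + 1) ^ q) ∧
      (∀ μ ∈ P'.support, ∀ x, μ x ≤ (M + 1) ^ q * M) ∧
      (∀ μ, coeff μ P' ∈ Algebra.adjoin F {g | ∃ l ν, g = tc (c l) (coeff ν P)}) ∧
      eval (fun x => tc (c x.1) (b x.2) - b x.2) P' ≠ 0 ∧
      eval (fun x => tc (c x.1) (b x.2) - b x.2) P' = ∑ l, A l * tc (c l) (eval b P) :=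
  L93.main2 b P hM h0

end DF
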