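import Pool.Agent.Lib.MP_64d474_lc.DF.Defs15

/-!
# Row X: the differences of a sum with any `r` variables together in few terms (helper14)
-/

set_option autoImplicit false

namespace DF

open MvPolynomial AK LS

namespace X14

variable {F : Type*} [Field F] {n : ℕ}

theorem tc_fix {c : Fin n → F} {g : MvPolynomial (Fin n) F}
    (h : ∀ i ∈ supp c, g.degreeOf i = 0) : tc c g = g := by
  classical
  have key : (tc c : MvPolynomial (Fin n) F →ₐ[F] MvPolynomial (Fin n) F).toRingHom g =
      (AlgHom.id F (MvPolynomial (Fin n) F)).toRingHom g := by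
    refine hom_congr_vars ?_ ?_ rfl
    · ext a
      simp [tc, algebraMap_eq]
    · intro i hi _
      have hc : c i = 0 := by
        by_contra hne
        have h1 := h i (by simp [supp, hne])
        rw [degreeOf_def, Multiset.count_eq_zero] at h1
        apply h1
        rw [vars_def, Multiset.mem_toFinset] at hi
        exact hi
      simp [tc, hc]
  exact key

theorem algF_mono {K K' : ℕ} {P : MvPolynomial (Fin n) F → Prop} (hK : K ≤ K')
    {G : Set (MvPolynomial (Fin n) F)} (h : AlgF K P G) : AlgF K' P G := by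
  obtain ⟨m, T, h1, h2, h3⟩ := h
  exact ⟨m, T, h1, fun s hs => (h2 s hs).trans hK, h3⟩

theorem algF_subset {K : ℕ} {P : MvPolynomial (Fin n) F → Prop}
    {G G' : Set (MvPolynomial (Fin n) F)} (hG : G ⊆ G') (h : AlgF K P G') : AlgF K P G := by
  obtain ⟨m, T, h1, h2, h3⟩ := h
  exact ⟨m, T, h1, h2, hG.trans h3⟩

theorem algF_single {K : ℕ} {P : MvPolynomial (Fin n) F → Prop} {g : MvPolynomial (Fin n) F} :
    AlgF K P {g} ↔ DH.Alg K P g := by
  unfold AlgF DH.Alg
  simp only [Set.singleton_subset_iff, SetLike.mem_coe]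

/-- Iterated differences in the directions of the axes. -/
noncomputable def DD : List (Fin n × F) → (MvPolynomial (Fin n) F →ₗ[F] MvPolynomial (Fin n) F)
  | [] => LinearMap.id
  | x :: L => (DD L).comp ((tc (Pi.single x.1 x.2)).toLinearMap - LinearMap.id)

theorem DD_nil (f : MvPolynomial (Fin n) F) : DD [] f = f := rfl

theorem DD_cons (x : Fin n × F) (L : List (Fin n × F)) (f : MvPolynomial (Fin n) F) :
    DD (x :: L) f = DD L (tc (Pi.single x.1 x.2) f - f) := rfl

theorem df_of_DD {K : ℕ} {P : MvPolynomial (Fin n) F → Prop} (r : ℕ) :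
    ∀ f : MvPolynomial (Fin n) F,
    (∀ L : List (Fin n × F), L.length = r → DH.Alg K P (DD L f)) → Df K P r f := by
  induction r with
  | zero =>
    intro f h
    exact h [] rfl
  | succ r ih =>
    intro f h i a
    refine ih _ fun L hL => ?_
    exact h ((i, a) :: L) (by simp [hL])

/-- The difference of a power of a variable. -/
theorem pow_deg (i : Fin n) (a : F) (d : ℕ) :
    (((X i : MvPolynomial (Fin n) F) + C a) ^ d - X i ^ d).degreeOf i ≤ d - 1 := by
  classical
  rw [← geom_sum₂_mul]
  refine (degreeOf_mul_le _ _ _).trans ?_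
  have h1 : ((X i : MvPolynomial (Fin n) F) + C a - X i).degreeOf i = 0 := by
    rw [add_sub_cancel_left, degreeOf_C]
  rw [h1, add_zero]
  refine (degreeOf_sum_le _ _ _).trans ?_
  refine Finset.sup_le fun l hl => ?_
  rw [Finset.mem_range] at hl
  refine (degreeOf_mul_le _ _ _).trans ?_
  have h2 : (((X i : MvPolynomial (Fin n) F) + C a) ^ l).degreeOf i ≤ l := by
    refine (degreeOf_pow_le _ _ _).trans ?_
    have h3 : ((X i : MvPolynomial (Fin n) F) + C a).degreeOf i ≤ 1 := by
      refine (degreeOf_add_le _ _ _).trans ?_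
      rw [degreeOf_C]
      exact max_le (by rw [degreeOf_X]; simp) (Nat.zero_le _)
    exact (Nat.mul_le_mul_left l h3).trans (by rw [mul_one])
  have h4 : ((X i : MvPolynomial (Fin n) F) ^ (d - 1 - l)).degreeOf i ≤ d - 1 - l := by
    refine (degreeOf_pow_le _ _ _).trans ?_
    rw [degreeOf_X, if_pos rfl, mul_one]
  omega

theorem mono_deg (i : Fin n) (a : F) (m : Fin n →₀ ℕ) (b : F) :
    (tc (Pi.single i a) (monomial m b) - monomial m b).degreeOf i ≤ m i - 1 := by
  classical
  have h1 : tc (Pi.single i a) (monomial m b : MvPolynomial (Fin n) F) =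
      C b * ((X i + C a) ^ m i * ∏ j ∈ Finset.univ.erase i, X j ^ m j) := by
    rw [monomial_eq, map_mul, tc_C, Finsupp.prod_fintype _ _ (fun _ => pow_zero _), map_prod,
      ← Finset.mul_prod_erase Finset.univ _ (Finset.mem_univ i)]
    congr 2
    · rw [map_pow, tc_X, Pi.single_eq_same]
    · refine Finset.prod_congr rfl fun j hj => ?_
      rw [map_pow, tc_X, Pi.single_eq_of_ne (Finset.ne_of_mem_erase hj), C_0, add_zero]
  have h2 : (monomial m b : MvPolynomial (Fin n) F) =
      C b * (X i ^ m i * ∏ j ∈ Finset.univ.erase i, X j ^ m j) := by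
    rw [monomial_eq, Finsupp.prod_fintype _ _ (fun _ => pow_zero _),
      ← Finset.mul_prod_erase Finset.univ _ (Finset.mem_univ i)]
  have h3 : tc (Pi.single i a) (monomial m b : MvPolynomial (Fin n) F) - monomial m b =
      C b * (((X i + C a) ^ m i - X i ^ m i) * ∏ j ∈ Finset.univ.erase i, X j ^ m j) := by
    rw [h1, h2]
    ring
  rw [h3]
  refine (degreeOf_mul_le _ _ _).trans ?_
  rw [degreeOf_C, zero_add]
  refine (degreeOf_mul_le _ _ _).trans ?_
  have h4 : (∏ j ∈ Finset.univ.erase i, (X j : MvPolynomial (Fin n) F) ^ m j).degreeOf i = 0 := by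
    refine Nat.le_zero.1 ((degreeOf_prod_le _ _ _).trans ?_)
    refine le_of_eq (Finset.sum_eq_zero fun j hj => ?_)
    refine Nat.le_zero.1 ((degreeOf_pow_le _ _ _).trans ?_)
    rw [degreeOf_X, if_neg (Finset.ne_of_mem_erase hj).symm, mul_zero]
  rw [h4, add_zero]
  exact pow_deg i a (m i)

theorem diff_deg (i : Fin n) (a : F) (p : MvPolynomial (Fin n) F) :
    (tc (Pi.single i a) p - p).degreeOf i ≤ p.degreeOf i - 1 := by
  classical
  have h1 : tc (Pi.single i a) p - p =
      ∑ m ∈ p.support, (tc (Pi.single i a) (monomial m (coeff m p)) - monomial m (coeff m p)) := by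
    rw [Finset.sum_sub_distrib, ← map_sum, ← as_sum]
  rw [h1]
  refine (degreeOf_sum_le _ _ _).trans (Finset.sup_le fun m hm => ?_)
  refine (mono_deg i a m _).trans (Nat.sub_le_sub_right ?_ 1)
  exact monomial_le_degreeOf i hm

theorem diff_deg' (i j : Fin n) (a : F) (p : MvPolynomial (Fin n) F) :
    (tc (Pi.single i a) p - p).degreeOf j ≤ p.degreeOf j := by
  refine (degreeOf_sub_le _ _ _).trans (max_le (tc_degreeOf _ _ _) le_rfl)

theorem diff_zero (i : Fin n) (a : F) (p : MvPolynomial (Fin n) F) (h : p.degreeOf i = 0) :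
    tc (Pi.single i a) p - p = 0 := by
  classical
  rw [X14.tc_fix, sub_self]
  intro j hj
  have h1 : j = i := by
    by_contra hne
    rw [supp, Finset.mem_filter] at hj
    exact hj.2 (by rw [Pi.single_eq_of_ne hne])
  rw [h1, h]

theorem count_le (L : List (Fin n × F)) : ∀ g : MvPolynomial (Fin n) F, DD L g ≠ 0 →
    ∀ i, (L.map Prod.fst).count i ≤ g.degreeOf i := by
  induction L with
  | nil => intro g _ i; simp
  | cons x L ih =>
    intro g hg i
    rw [DD_cons] at hg
    have h1 := ih _ hg i
    rw [List.map_cons, List.count_cons]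
    by_cases hi : x.1 = i
    · have h2 : g.degreeOf i ≠ 0 := by
        intro h0
        apply hg
        rw [diff_zero x.1 x.2 g (by rw [hi]; exact h0), map_zero]
      have h3 := diff_deg x.1 x.2 g
      rw [hi] at h3
      rw [hi] at h1
      simp only [hi, beq_self_eq_true, if_true]
      omega
    · have h3 := diff_deg' x.1 i x.2 g
      have h4 : (x.1 == i) = false := by simpa using hi
      rw [h4]
      simp only [Bool.false_eq_true, if_false, add_zero]
      exact h1.trans h3

theorem supp_add_card (c c' : Fin n → F) : (supp (c + c')).card ≤ (supp c).card + (supp c').card := by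
  classical
  refine (Finset.card_le_card ?_).trans (Finset.card_union_le _ _)
  intro i hi
  rw [supp, Finset.mem_filter] at hi
  rw [Finset.mem_union]
  by_contra hne
  apply hi.2
  have h1 : c i = 0 := by
    by_contra h
    exact hne (Or.inl (by rw [supp, Finset.mem_filter]; exact ⟨Finset.mem_univ _, h⟩))
  have h2 : c' i = 0 := by
    by_contra h
    exact hne (Or.inr (by rw [supp, Finset.mem_filter]; exact ⟨Finset.mem_univ _, h⟩))
  rw [Pi.add_apply, h1, h2, add_zero]

theorem supp_single_card (i : Fin n) (a : F) : (supp (Pi.single i a : Fin n → F)).card ≤ 1 := by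
  classical
  refine (Finset.card_le_card (t := {i}) ?_).trans (by rw [Finset.card_singleton])
  intro j hj
  rw [supp, Finset.mem_filter] at hj
  rw [Finset.mem_singleton]
  by_contra hne
  exact hj.2 (by rw [Pi.single_eq_of_ne hne])

/-- The iterated differences of one term. -/
theorem term {k N : ℕ} {P P' : MvPolynomial (Fin n) F → Prop}
    (hP : ∀ c : Fin n → F, (supp c).card ≤ N → ∀ p, P p → P' (tc c p))
    {g : MvPolynomial (Fin n) F} (hg : DH.Alg k P g) (L : List (Fin n × F)) :
    ∀ c : Fin n → F, (supp c).card + L.length ≤ N →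
      AlgF (2 ^ L.length * k) P' {DD L (tc c g)} := by
  induction L with
  | nil =>
    intro c hc
    rw [List.length_nil, pow_zero, one_mul, DD_nil]
    have h1 := algF_map c (hP c (by simpa using hc)) (X14.algF_single.2 hg)
    rwa [Set.image_singleton] at h1
  | cons x L ih =>
    intro c hc
    rw [List.length_cons] at hc
    have h1 := ih c (by omega)
    have h2 := ih (Pi.single x.1 x.2 + c) (by
      have h3 := supp_add_card (Pi.single x.1 x.2) c
      have h4 := supp_single_card x.1 x.2
      omega)
    have h3 := algF_adjoin (algF_union h2 h1)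
    have h4 : 2 ^ (x :: L).length * k = 2 ^ L.length * k + 2 ^ L.length * k := by
      rw [List.length_cons, pow_succ]
      ring
    rw [h4]
    refine X14.algF_subset ?_ h3
    rw [Set.singleton_subset_iff, DD_cons, map_sub, tc_tc]
    refine Subalgebra.sub_mem _ ?_ ?_
    · exact Algebra.subset_adjoin (Or.inl rfl)
    · exact Algebra.subset_adjoin (Or.inr rfl)

/-- The number of directions. -/
theorem dirs {r e : ℕ} (hr : r ≠ 0) (L : List (Fin n × F)) (hL : L.length = e * (r - 1) + 1)
    (g : MvPolynomial (Fin n) F) (hg : DD L g ≠ 0) (he : 1 < r → ∀ i, g.degreeOf i ≤ e) :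
    r ≤ (L.map Prod.fst).toFinset.card := by
  classical
  have h1 := count_le L g hg
  by_cases h2 : 1 < r
  · have h3 : (L.map Prod.fst).length = ∑ i ∈ (L.map Prod.fst).toFinset,
        (L.map Prod.fst).count i := (List.sum_toFinset_count_eq_length _).symm
    have h4 : ∑ i ∈ (L.map Prod.fst).toFinset, (L.map Prod.fst).count i ≤
        (L.map Prod.fst).toFinset.card * e := by
      refine (Finset.sum_le_card_nsmul _ _ e fun i _ => (h1 i).trans (he h2 i)).trans ?_
      rw [smul_eq_mul]
    rw [← h3, List.length_map, hL] at h4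
    by_contra h5
    have h6 : (L.map Prod.fst).toFinset.card ≤ r - 1 := by omega
    have h7 := Nat.mul_le_mul_right e h6
    rw [mul_comm (r - 1) e] at h7
    omega
  · have h3 : r = 1 := by omega
    rw [h3]
    rw [Nat.one_le_iff_ne_zero, Finset.card_ne_zero]
    cases L with
    | nil => simp at hL
    | cons x L => exact ⟨x.1, by simp⟩

end X14

/-- Row X. -/
theorem df_of_locR {F : Type*} [Field F] {n r k e : ℕ} {P P' : MvPolynomial (Fin n) F → Prop}
    (hP : ∀ c : Fin n → F, (supp c).card ≤ ord r e → ∀ p, P p → P' (tc c p))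
    {f : MvPolynomial (Fin n) F} (h : LocR r k e P f) :
    Df (2 ^ ord r e * k * (2 ^ ord r e * k)) P' (ord r e) f := by
  classical
  obtain ⟨m, g, h1, h2, h3, rfl⟩ := h
  refine X14.df_of_DD _ _ fun L hL => ?_
  rw [map_sum]
  set A : Finset (Fin m) := Finset.univ.filter fun a => X14.DD L (g a) ≠ 0 with hA
  have hsum : ∑ a, X14.DD L (g a) = ∑ a ∈ A, X14.DD L (g a) := by
    symm
    refine Finset.sum_subset (Finset.subset_univ _) fun a _ ha => ?_
    by_contra hne
    exact ha (by rw [hA, Finset.mem_filter]; exact ⟨Finset.mem_univ _, hne⟩)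
  have hAk : A.card ≤ k := by
    by_cases hr : r = 0
    · refine (Finset.card_le_card ?_).trans (h2 ∅ (by rw [hr, Finset.card_empty]))
      intro a _
      rw [Finset.mem_filter]
      exact ⟨Finset.mem_univ _, fun i hi => absurd hi (Finset.notMem_empty i)⟩
    · by_cases h0 : A = ∅
      · rw [h0, Finset.card_empty]
        exact Nat.zero_le _
      · obtain ⟨b, hb⟩ := Finset.nonempty_iff_ne_empty.2 h0
        rw [hA, Finset.mem_filter] at hb
        have hL' : L.length = e * (r - 1) + 1 := by rw [hL, ord, if_neg hr]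
        have h5 := X14.dirs hr L hL' (g b) hb.2 (fun h6 => h3 h6 b)
        obtain ⟨s, hs, hsr⟩ := Finset.exists_subset_card_eq h5
        refine (Finset.card_le_card ?_).trans (h2 s hsr)
        intro a ha
        rw [hA, Finset.mem_filter] at ha
        rw [Finset.mem_filter]
        refine ⟨Finset.mem_univ _, fun i hi => ?_⟩
        have h6 := X14.count_le L (g a) ha.2 i
        have h7 : 0 < (L.map Prod.fst).count i := by
          rw [List.count_pos_iff]
          exact List.mem_toFinset.1 (hs hi)
        omega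
  rw [hsum]
  have hfam : ∀ a : A, AlgF (2 ^ ord r e * k) P' {X14.DD L (g a)} := by
    intro a
    have h5 := X14.term hP (h1 a) L 0 (by
      have h6 : (supp (0 : Fin n → F)) = ∅ := by
        refine Finset.eq_empty_of_forall_notMem fun i hi => ?_
        rw [supp, Finset.mem_filter] at hi
        exact hi.2 rfl
      rw [h6, Finset.card_empty, zero_add, hL])
    rwa [tc_zero, hL] at h5
  have hall := algF_adjoin (algF_iUnion hfam)
  have hcard : Fintype.card A * (2 ^ ord r e * k) ≤ 2 ^ ord r e * k * (2 ^ ord r e * k) := by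
    rw [Fintype.card_coe]
    refine Nat.mul_le_mul_right _ (hAk.trans ?_)
    exact Nat.le_mul_of_pos_left _ (by positivity)
  refine X14.algF_single.1 (X14.algF_subset ?_
    (X14.algF_mono hcard hall))
  rw [Set.singleton_subset_iff, SetLike.mem_coe]
  refine Subalgebra.sum_mem _ fun a ha => ?_
  apply Algebra.subset_adjoin
  exact Set.mem_iUnion.2 ⟨⟨a, ha⟩, rfl⟩

end DF
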