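import Pool.Agent.Lib.MP_64d474_lc.DF.B2
import Pool.Agent.Lib.MP_64d474_lc.DF.L93
import Pool.Agent.Lib.MP_64d474_lc.DF.X14

/-!
# The classes `Qd` are closed under expressions
-/

set_option autoImplicit false

namespace DF.CL15

open MvPolynomial AK LS LS.CL15

section gen

variable {F : Type*} [Field F] {n : ℕ}

/-- `Qd` from a family indexed by any finite type. -/
theorem qd_of {r q M K κ : ℕ} {P : MvPolynomial (Fin n) F → Prop} {τ : Type*} [Fintype τ]
    (b : τ → MvPolynomial (Fin n) F) (Q : MvPolynomial τ (MvPolynomial (Fin n) F))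
    (hτ : Fintype.card τ ≤ q) (hb : ∀ x, Df κ P r (b x)) (hM : ∀ x, Q.degreeOf x ≤ M)
    (hA : AlgF K P {g | ∃ μ, g = coeff μ Q}) : Qd r q M K κ P (eval b Q) := by
  classical
  let φ := Fintype.equivFin τ
  refine ⟨Fintype.card τ, fun x => b (φ.symm x), rename φ Q, hτ, fun x => hb _, ?_, ?_, ?_⟩
  · intro μ hμ x
    refine (monomial_le_degreeOf x hμ).trans ?_
    have h1 := degreeOf_rename_of_injective (p := Q) φ.injective (φ.symm x)
    rw [Equiv.apply_symm_apply] at h1
    rw [h1]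
    exact hM _
  · refine algF_mono le_rfl (fun f hf => hf) ?_ hA
    rintro g ⟨μ, rfl⟩
    refine ⟨μ.mapDomain φ.symm, ?_⟩
    have h1 := coeff_rename_mapDomain φ φ.injective Q (μ.mapDomain φ.symm)
    rw [← Finsupp.mapDomain_comp] at h1
    rw [← h1]
    congr 1
    have : (φ ∘ φ.symm : Fin (Fintype.card τ) → Fin (Fintype.card τ)) = id := by
      funext x; simp
    rw [this, Finsupp.mapDomain_id]
  · rw [eval_rename]
    congr 2
    funext x
    simp

theorem eval_shift2 {σ τ : Type*} (φ : MvPolynomial (Fin n) F →+* MvPolynomial (Fin n) F)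
    (v : σ → τ) (b δ : σ → MvPolynomial (Fin n) F) (b' : τ → MvPolynomial (Fin n) F)
    (hb : ∀ j, b' (v j) + δ j = φ (b j)) (Q : MvPolynomial σ (MvPolynomial (Fin n) F)) :
    eval b' (eval₂ (C.comp φ) (fun j => X (v j) + C (δ j)) Q) = φ (eval b Q) := by
  show _ = φ (eval₂ (RingHom.id _) b Q)
  rw [eval₂_comp_left (eval b'), eval₂_comp_left φ]
  have h1 : (eval b').comp (C.comp φ) = φ.comp (RingHom.id (MvPolynomial (Fin n) F)) := by
    refine RingHom.ext fun a => ?_
    simp only [RingHom.comp_apply, eval_C, RingHom.id_apply]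
  rw [h1]
  congr 1
  funext j
  simp [hb]

end gen

/-- Row CL. -/
theorem expr_qd {F : Type*} [Field F] [Infinite F] {n r r' q M K κ k s e E M' t : ℕ} (i : Fin n)
    (BB : Finset (MvPolynomial (Fin n) F))
    (h : ∀ b ∈ BB, Qd r' q M K κ (DLev r s k e t) b ∧ ∀ j, b.degreeOf j ≤ E)
    (b : MvPolynomial (Fin n) F) (hb : Expr (Pi.single i 1) E M' BB b) :
    Qd r' ((E + 1) * (E + 1) * q) (M' * M) ((E + 1) * (E + 1) * K) κ
      (DLev r ((e + 1) * s) k e t) b := by
  classical
  obtain ⟨g, p, hg, hp, rfl⟩ := hb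
  obtain ⟨c, lam, -, hlam⟩ := AK.DH.coeff_eq_sum_tr (F := F) (Pi.single i (1 : F)) E
  choose q' bb Q hq' hbb hQM hQA hQe using fun a : Fin (E + 1) => (h _ (hg a)).1
  let φ : Fin (E + 1) → MvPolynomial (Fin n) F →+* MvPolynomial (Fin n) F := fun j =>
    (tc (Pi.single i (c j)) : MvPolynomial (Fin n) F →ₐ[F] MvPolynomial (Fin n) F).toRingHom
  let τ : Type := Σ aj : Fin (E + 1) × Fin (E + 1), Fin (q' aj.1)
  let v : ∀ aj : Fin (E + 1) × Fin (E + 1), Fin (q' aj.1) → τ := fun aj j => ⟨aj, j⟩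
  have hv : ∀ aj, Function.Injective (v aj) := fun aj j j' hj => by
    exact eq_of_heq (Sigma.mk.inj hj).2
  let b' : τ → MvPolynomial (Fin n) F := fun x => φ x.1.2 (bb x.1.1 x.2)
  let G : Fin (E + 1) → Fin (E + 1) → MvPolynomial τ (MvPolynomial (Fin n) F) := fun a j' =>
    eval₂ (C.comp (φ j')) (fun j => X (v (a, j') j) + C 0) (Q a)
  have hG : ∀ a j', eval b' (G a j') = φ j' (g a) := fun a j' => by
    rw [hQe a]
    exact eval_shift2 (φ j') (v (a, j')) (bb a) (fun _ => 0) b' (fun j => add_zero _) (Q a)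
  let H : Fin (E + 1) × Fin (E + 1) → MvPolynomial τ (MvPolynomial (Fin n) F) := fun al =>
    ∑ j', C (C (lam al.2 j')) * G al.1 j'
  have hH : ∀ al, eval b' (H al) = (sh (Pi.single i 1) (g al.1)).coeff al.2 := fun al => by
    rw [hlam (g al.1) ((sh_natDegree_degreeOf i _).trans ((h _ (hg al.1)).2 i)) al.2]
    simp only [H, map_sum, map_mul, eval_C, hG]
    refine Finset.sum_congr rfl fun j' _ => ?_
    rw [tr_single]
    rfl
  have hs : (e + 1) ^ 1 * s = (e + 1) * s := by rw [pow_one]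
  have h6 : ∀ p : MvPolynomial (Fin (E + 1) × Fin (E + 1)) F, eval b' (aeval H p) =
      aeval (fun al : Fin (E + 1) × Fin (E + 1) =>
        (sh (Pi.single i 1) (g al.1)).coeff (al.2 : ℕ)) p := by
    intro p
    have h7 : ((aeval b' : MvPolynomial τ (MvPolynomial (Fin n) F) →ₐ[
        MvPolynomial (Fin n) F] MvPolynomial (Fin n) F).restrictScalars F).comp (aeval H) =
        aeval (fun al : Fin (E + 1) × Fin (E + 1) =>
          (sh (Pi.single i (1 : F)) (g al.1)).coeff (al.2 : ℕ)) := by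
      refine MvPolynomial.algHom_ext fun al => ?_
      rw [AlgHom.comp_apply, aeval_X, aeval_X, AlgHom.restrictScalars_apply, aeval_eq_eval]
      exact hH al
    have h8 := DFunLike.congr_fun h7 p
    rw [AlgHom.comp_apply, AlgHom.restrictScalars_apply, aeval_eq_eval] at h8
    exact h8
  rw [← h6 p]
  refine qd_of b' (aeval H p) ?_ (fun x => ?_) (fun x => ?_) ?_
  · rw [Fintype.card_sigma]
    calc ∑ aj : Fin (E + 1) × Fin (E + 1), Fintype.card (Fin (q' aj.1)) ≤
        ∑ _aj : Fin (E + 1) × Fin (E + 1), q := by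
          refine Finset.sum_le_sum fun aj _ => ?_
          rw [Fintype.card_fin]
          exact hq' _
      _ = (E + 1) * (E + 1) * q := by simp
  · have h1 := df_tc 1 (Pi.single i (c x.1.2)) (supp_single_card _ _) (hbb x.1.1 x.2)
    rw [hs] at h1
    exact h1
  · refine (degreeOf_aeval_le15 H x M (fun al => ?_) p).trans (Nat.mul_le_mul_right _ hp)
    refine (degreeOf_sum_le _ _ _).trans (Finset.sup_le fun j' _ => ?_)
    refine (degreeOf_mul_le _ _ _).trans ?_
    rw [degreeOf_C, zero_add]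
    exact degreeOf_shift (φ j') (v (al.1, j')) (hv _) _ x M (Q al.1) (hQM al.1)
  · have h1 : ∀ aj : Fin (E + 1) × Fin (E + 1), AlgF K (DLev r ((e + 1) * s) k e t)
        (tc (Pi.single i (c aj.2)) '' {x | ∃ μ, x = coeff μ (Q aj.1)}) := by
      intro aj
      have := algF_tcD 1 (Pi.single i (c aj.2)) (supp_single_card _ _) (hQA aj.1)
      rwa [hs] at this
    have h4 := algF_adjoin (algF_iUnion h1)
    rw [Fintype.card_prod, Fintype.card_fin] at h4
    refine algF_mono le_rfl (fun f hf => hf) ?_ h4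
    rintro x ⟨μ, rfl⟩
    set A : Subalgebra F (MvPolynomial (Fin n) F) := Algebra.adjoin F (⋃ aj :
      Fin (E + 1) × Fin (E + 1), (tc (Pi.single i (c aj.2)) '' {x | ∃ μ, x = coeff μ (Q aj.1)}))
      with hA
    have hGA : ∀ a j', G a j' ∈ coeffsIn A τ := by
      intro a j'
      refine eval₂_mem_coeffsIn (φ j') _ (fun j => ?_) (Q a) (fun μ => ?_)
      · exact Subalgebra.add_mem _ (X_mem_coeffsIn _) (C_mem_coeffsIn (Subalgebra.zero_mem _))
      · refine Algebra.subset_adjoin (Set.mem_iUnion.2 ⟨(a, j'), ?_⟩)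
        exact ⟨_, ⟨μ, rfl⟩, rfl⟩
    have hHA : ∀ al, H al ∈ coeffsIn A τ := by
      intro al
      refine Subalgebra.sum_mem _ fun j' _ => Subalgebra.mul_mem _ (C_mem_coeffsIn ?_) (hGA _ _)
      exact Subalgebra.algebraMap_mem _ _
    refine coeff_mem_of ?_ μ
    have h5 : aeval H p ∈ Algebra.adjoin F (Set.range H) := by
      rw [Algebra.adjoin_range_eq_range_aeval]
      exact ⟨p, rfl⟩
    refine (Algebra.adjoin_le ?_ : _ ≤ coeffsIn A τ) h5
    rintro _ ⟨al, rfl⟩
    exact hHA al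

end DF.CL15
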