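import Pool.Agent.Lib.MP_64d474_lc.LS.Ind15

/-!
# Sums of any number of terms, any `r` variables together in few of them: definitions
-/

set_option autoImplicit false

namespace DF

open MvPolynomial AK LS

variable {F : Type*} [Field F] {n : ℕ}

/-- All `r`-fold differences of `f` in the directions of the axes are in `Alg k P`. -/
def Df (k : ℕ) (P : MvPolynomial (Fin n) F → Prop) : ℕ → MvPolynomial (Fin n) F → Prop
  | 0, f => DH.Alg k P f
  | r + 1, f => ∀ (i : Fin n) (a : F), Df k P r (tc (Pi.single i a) f - f)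

/-- The levels given by differences. -/
def DLev (r s k e : ℕ) : ℕ → MvPolynomial (Fin n) F → Prop
  | 0, f => f.support.card ≤ s ∧ ∀ i, f.degreeOf i ≤ e
  | t + 1, f => Df k (DLev r s k e t) r f ∧ ∀ i, f.degreeOf i ≤ e

/-- `h = Q (b_1, …, b_q')`, `q' ≤ q`, all `r`-fold differences of the `b_j` in `Alg κ P`, `Q` of
degree at most `M` in each variable, with coefficients that are polynomials in products of members
of `P`, transcendence degree at most `K`. -/
def Qd (r q M K κ : ℕ) (P : MvPolynomial (Fin n) F → Prop) (h : MvPolynomial (Fin n) F) : Prop :=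
  ∃ (q' : ℕ) (b : Fin q' → MvPolynomial (Fin n) F)
    (Q : MvPolynomial (Fin q') (MvPolynomial (Fin n) F)), q' ≤ q ∧
    (∀ j, Df κ P r (b j)) ∧ (∀ μ ∈ Q.support, ∀ j, μ j ≤ M) ∧
    AlgF K P {g | ∃ μ, g = coeff μ Q} ∧ h = eval b Q

open Classical in
/-- A sum of any number of terms from `Alg k P`, any `r` variables together in at most `k` of them;
for `r > 1` the terms have degree at most `e` in each variable. -/
def LocR (r k e : ℕ) (P : MvPolynomial (Fin n) F → Prop) (f : MvPolynomial (Fin n) F) : Prop :=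
  ∃ (m : ℕ) (g : Fin m → MvPolynomial (Fin n) F), (∀ a, DH.Alg k P (g a)) ∧
    (∀ s : Finset (Fin n), s.card = r →
      (Finset.univ.filter fun a => ∀ i ∈ s, (g a).degreeOf i ≠ 0).card ≤ k) ∧
    (1 < r → ∀ a i, (g a).degreeOf i ≤ e) ∧ f = ∑ a, g a

/-- The levels given by sums. -/
def RLev (r s k e : ℕ) : ℕ → MvPolynomial (Fin n) F → Prop
  | 0, f => f.support.card ≤ s ∧ ∀ i, f.degreeOf i ≤ e
  | t + 1, f => LocR r k e (RLev r s k e t) f ∧ ∀ i, f.degreeOf i ≤ e

/-- The order of the differences for sums with any `r` variables in few terms. -/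
def ord (r e : ℕ) : ℕ := if r = 0 then 0 else e * (r - 1) + 1

end DF
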