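import Pool.Agent.Lib.MP_64d474_lc.DF.CL15

/-!
# Hitting the classes `Qd`
-/

set_option autoImplicit false

namespace DF.HQ15

open MvPolynomial AK LS LS.CL15

universe u

theorem hit_qd (ρ : ℕ) : ∀ q M K κ : ℕ, ∃ K' N' : ℕ, ∀ (F : Type u) [Field F] [CharZero F]
    (n r s k e t R S : ℕ),
    (∀ f : MvPolynomial (Fin n) F, f ≠ 0 → DH.Alg K' (DLev r ((e + 1) ^ N' * s) k e t) f →
      aeval (DH.B.bX F n S R) f ≠ 0) →
    ∀ f : MvPolynomial (Fin n) F, f ≠ 0 → Qd ρ q M K κ (DLev r s k e t) f →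
      aeval (DH.B.bX F n S (R + N')) f ≠ 0 := by
  induction ρ with
  | zero =>
    intro q M K κ
    refine ⟨K + q * κ, 0, fun F _ _ n r s k e t R S ih f h0 hf => ?_⟩
    classical
    obtain ⟨q', b, Q, hq', hb, hM, hA, rfl⟩ := hf
    rw [pow_zero, one_mul] at ih
    refine ih _ h0 ?_
    have h1 : ∀ j : Fin q', AlgF κ (DLev r s k e t) {b j} := fun j => by
      obtain ⟨m, T, g1, g2, g3⟩ := hb j
      exact ⟨m, T, g1, g2, Set.singleton_subset_iff.2 g3⟩
    have h2 := algF_adjoin (algF_union hA (algF_iUnion h1))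
    rw [Fintype.card_fin] at h2
    refine DH.alg_mono (Nat.add_le_add_left (Nat.mul_le_mul_right _ hq') _) (fun f hf => hf)
      (HQ15.alg_of_algF h2 ?_)
    show eval b Q ∈ Algebra.adjoin F _
    rw [eval_eq]
    refine Subalgebra.sum_mem _ fun μ _ => Subalgebra.mul_mem _ ?_
      (Subalgebra.prod_mem _ fun j _ => Subalgebra.pow_mem _ ?_ _)
    · exact Algebra.subset_adjoin (Or.inl ⟨μ, rfl⟩)
    · exact Algebra.subset_adjoin (Or.inr (Set.mem_iUnion.2 ⟨j, rfl⟩))
  | succ ρ IH =>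
    intro q M K κ
    obtain ⟨N, hN⟩ : ∃ N, N = (M + 1) ^ q := ⟨_, rfl⟩
    obtain ⟨K', N'', hIH⟩ := IH (N * q) (N * M) (N * K) (N * κ)
    refine ⟨K', N'' + N, fun F _ _ n r s k e t R S ih f h0 hf => ?_⟩
    classical
    obtain ⟨q', b, Q, hq', hb, hM, hA, rfl⟩ := hf
    have hNq : (M + 1) ^ q' ≤ N := hN ▸ Nat.pow_le_pow_right (Nat.succ_pos M) hq'
    obtain ⟨r0, c, P', A, hr, hsupp, hdeg, hco, hD0, hD⟩ := loc2 b Q hM h0
    have hr' := hr.trans hNq
    have hsupp' : ∀ l, (supp (c l)).card ≤ N := fun l => (hsupp l).trans hNq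
    have h1 : Qd ρ (N * q) (N * M) (N * K) (N * κ) (DLev r ((e + 1) ^ N * s) k e t)
        (eval (fun x : Fin r0 × Fin q' => tc (c x.1) (b x.2) - b x.2) P') := by
      refine CL15.qd_of _ P' ?_ (fun x => ?_) (fun x => ?_) ?_
      · rw [Fintype.card_prod, Fintype.card_fin, Fintype.card_fin]
        exact Nat.mul_le_mul hr' hq'
      · exact df_diff N (c x.1) (hsupp' _) (hb x.2)
      · rw [degreeOf_le_iff]
        intro μ hμ
        exact (hdeg μ hμ x).trans (Nat.mul_le_mul_right _ hNq)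
      · have h2 : ∀ l : Fin r0, AlgF K (DLev r ((e + 1) ^ N * s) k e t)
            (tc (c l) '' {x | ∃ μ, x = coeff μ Q}) := fun l => algF_tcD N (c l) (hsupp' l) hA
        have h3 := algF_adjoin (algF_iUnion h2)
        rw [Fintype.card_fin] at h3
        refine algF_mono (Nat.mul_le_mul_right _ hr') (fun f hf => hf) ?_ h3
        rintro x ⟨μ, rfl⟩
        refine Algebra.adjoin_mono ?_ (hco μ)
        rintro g ⟨l, ν, rfl⟩
        exact Set.mem_iUnion.2 ⟨l, ⟨_, ⟨ν, rfl⟩, rfl⟩⟩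
    have h5 := hIH F n r ((e + 1) ^ N * s) k e t R S (fun f hf0 hf => ih f hf0 (by
      rwa [pow_add, mul_assoc])) _ hD0 h1
    obtain ⟨x, hx⟩ := DH.exists_eval_ne h5
    rw [DH.B.eval_bX, hD, map_sum] at hx
    obtain ⟨l, -, hl⟩ := Finset.exists_ne_zero_of_sum_ne_zero hx
    rw [map_mul] at hl
    have h6 := right_ne_zero_of_mul hl
    rw [HQ15.eval_tc] at h6
    obtain ⟨a', w', h7⟩ := DH.B.exists_append (S := S) (supp (c l)) (hsupp' l) (x (Sum.inl ()))
      (fun j => x (Sum.inr (Sum.inl j))) (fun j => x (Sum.inr (Sum.inr j))) (c l) (fun i hi => by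
        by_contra h
        exact hi (by rw [supp, Finset.mem_filter]; exact ⟨Finset.mem_univ _, h⟩))
    intro h8
    apply h6
    rw [← h7]
    have h9 := DH.B.eval_bX (Sum.elim (fun _ : Unit => x (Sum.inl ())) (Sum.elim a' w'))
      (eval b Q) (S := S)
    rw [← add_assoc] at h8
    rw [h8, map_zero] at h9
    exact h9.symm

end DF.HQ15
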